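import Mathlib

set_option autoImplicit false

namespace Pool.Agent.KS6_22.LD

open Real

theorem trig {A B P Q : ℝ} (hA : 0 < A) (hAB : A < B) (hB : B < π) (hP : 0 < P) (hQ : 0 < Q)
    (h : P * sin A = Q * sin B) : (P ≤ Q → π ≤ A + B) ∧ (Q ≤ P → A + B ≤ π) := by
  have sA : 0 < sin A := sin_pos_of_pos_of_lt_pi hA (by linarith)
  have sB : 0 < sin B := sin_pos_of_pos_of_lt_pi (by linarith) hB
  have mono : ∀ a b : ℝ, 0 ≤ a → a < b → b ≤ π / 2 → sin a < sin b := fun a b h1 h2 h3 =>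
    sin_lt_sin_of_lt_of_le_pi_div_two (by linarith [pi_pos]) h3 h2
  constructor
  · intro hPQ
    by_contra hc
    have hc := not_le.1 hc
    have : sin A < sin B := by
      rcases le_total B (π / 2) with h1 | h1
      · exact mono A B hA.le hAB h1
      · rw [← sin_pi_sub B]; exact mono A _ hA.le (by linarith) (by linarith)
    nlinarith
  · intro hQP
    by_contra hc
    have hc := not_le.1 hc
    have : sin B < sin A := by
      rcases le_total A (π / 2) with h1 | h1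
      · rw [← sin_pi_sub B]; exact mono _ A (by linarith) (by linarith) h1
      · rw [← sin_pi_sub B, ← sin_pi_sub A]
        exact mono _ _ (by linarith) (by linarith) (by linarith)
    nlinarith

noncomputable def ds (X Y : ℕ → ℝ) (a b : ℕ) : ℝ := √((X b - X a) ^ 2 + (Y b - Y a) ^ 2)

noncomputable def th (X Y : ℕ → ℝ) (a b : ℕ) : ℝ := arctan ((Y b - Y a) / (X b - X a))

def cr (X Y : ℕ → ℝ) (a b c : ℕ) : ℝ := (X b - X a) * (Y c - Y a) - (Y b - Y a) * (X c - X a)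

theorem ds_sq (X Y : ℕ → ℝ) (a b : ℕ) : ds X Y a b ^ 2 = (X b - X a) ^ 2 + (Y b - Y a) ^ 2 :=
  sq_sqrt (by positivity)

theorem ds_nonneg (X Y : ℕ → ℝ) (a b : ℕ) : 0 ≤ ds X Y a b := sqrt_nonneg _

theorem polar {X Y : ℕ → ℝ} {a b : ℕ} (h : X a < X b) : 0 < ds X Y a b ∧
    X b - X a = ds X Y a b * cos (th X Y a b) ∧ Y b - Y a = ds X Y a b * sin (th X Y a b) := by
  have h0 : 0 < X b - X a := by linarith
  have e : ds X Y a b = (X b - X a) * √(1 + ((Y b - Y a) / (X b - X a)) ^ 2) := by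
    unfold ds
    rw [← sqrt_sq h0.le, ← sqrt_mul (sq_nonneg _), sqrt_sq h0.le]
    congr 1; field_simp
  have h1 : 0 < √(1 + ((Y b - Y a) / (X b - X a)) ^ 2) := sqrt_pos.2 (by positivity)
  refine ⟨by rw [e]; positivity, ?_, ?_⟩
  · rw [e, th, cos_arctan]; field_simp
  · rw [e, th, sin_arctan]; field_simp

theorem th_lt (X Y : ℕ → ℝ) (a b : ℕ) : th X Y a b < π / 2 := arctan_lt_pi_div_two _
theorem lt_th (X Y : ℕ → ℝ) (a b : ℕ) : -(π / 2) < th X Y a b := neg_pi_div_two_lt_arctan _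

/-- A chain, monotone in `X`, turning left, whose end points realise the diameter. -/
structure Cap (X Y : ℕ → ℝ) (lo hi : ℕ) : Prop where
  mono : ∀ a b, lo ≤ a → a < b → b ≤ hi → X a < X b
  ori : ∀ a b c, lo ≤ a → a < b → b < c → c ≤ hi → 0 < cr X Y a b c
  diam : ∀ a b, lo ≤ a → a < b → b ≤ hi → ds X Y a b ≤ ds X Y lo hi

variable {X Y : ℕ → ℝ} {lo hi : ℕ}

theorem Cap.th1 (H : Cap X Y lo hi) {a b c : ℕ} (h1 : lo ≤ a) (h2 : a < b) (h3 : b < c)
    (h4 : c ≤ hi) : th X Y a b < th X Y a c ∧ th X Y a c < th X Y b c := by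
  have m1 := H.mono a b h1 h2 (by omega)
  have m2 := H.mono a c h1 (by omega) h4
  have m3 := H.mono b c (by omega) h3 h4
  have o := H.ori a b c h1 h2 h3 h4
  unfold cr at o
  constructor
  · apply arctan_strictMono
    rw [div_lt_div_iff₀ (by linarith) (by linarith)]; linarith
  · apply arctan_strictMono
    rw [div_lt_div_iff₀ (by linarith) (by linarith)]; nlinarith

theorem Cap.T1 (H : Cap X Y lo hi) {a b c : ℕ} (h1 : lo ≤ a) (h2 : a < b) (h3 : b < c)
    (h4 : c ≤ hi) :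
    (ds X Y a c ≤ ds X Y b c → π ≤ th X Y a c + th X Y b c - 2 * th X Y a b) ∧
    (ds X Y b c ≤ ds X Y a c → th X Y a c + th X Y b c - 2 * th X Y a b ≤ π) := by
  obtain ⟨p1, x1, y1⟩ := polar (Y := Y) (H.mono a b h1 h2 (by omega))
  obtain ⟨p2, x2, y2⟩ := polar (Y := Y) (H.mono a c h1 (by omega) h4)
  obtain ⟨p3, x3, y3⟩ := polar (Y := Y) (H.mono b c (by omega) h3 h4)
  obtain ⟨t1, t2⟩ := H.th1 h1 h2 h3 h4
  have e : ds X Y a c * sin (th X Y a c - th X Y a b) =
      ds X Y b c * sin (th X Y b c - th X Y a b) := by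
    apply mul_left_cancel₀ p1.ne'
    rw [sin_sub, sin_sub]
    have : (X b - X a) * (Y c - Y a) - (Y b - Y a) * (X c - X a) =
      (X b - X a) * (Y c - Y b) - (Y b - Y a) * (X c - X b) := by ring
    rw [x1, y1, x2, y2, x3, y3] at this
    linarith
  have := trig (by linarith) (by linarith) (by linarith [th_lt X Y b c, lt_th X Y a b]) p2 p3 e
  exact ⟨fun h => by linarith [this.1 h], fun h => by linarith [this.2 h]⟩

theorem Cap.T2 (H : Cap X Y lo hi) {a b c : ℕ} (h1 : lo ≤ a) (h2 : a < b) (h3 : b < c)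
    (h4 : c ≤ hi) :
    (ds X Y a c ≤ ds X Y a b → π ≤ 2 * th X Y b c - th X Y a b - th X Y a c) ∧
    (ds X Y a b ≤ ds X Y a c → 2 * th X Y b c - th X Y a b - th X Y a c ≤ π) := by
  obtain ⟨p1, x1, y1⟩ := polar (Y := Y) (H.mono a b h1 h2 (by omega))
  obtain ⟨p2, x2, y2⟩ := polar (Y := Y) (H.mono a c h1 (by omega) h4)
  obtain ⟨p3, x3, y3⟩ := polar (Y := Y) (H.mono b c (by omega) h3 h4)
  obtain ⟨t1, t2⟩ := H.th1 h1 h2 h3 h4
  have e : ds X Y a c * sin (th X Y b c - th X Y a c) =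
      ds X Y a b * sin (th X Y b c - th X Y a b) := by
    apply mul_left_cancel₀ p3.ne'
    rw [sin_sub, sin_sub]
    have : (X c - X a) * (Y c - Y b) - (Y c - Y a) * (X c - X b) =
      (X b - X a) * (Y c - Y b) - (Y b - Y a) * (X c - X b) := by ring
    rw [x1, y1, x2, y2, x3, y3] at this
    linarith
  have := trig (by linarith) (by linarith) (by linarith [th_lt X Y b c, lt_th X Y a b]) p2 p1 e
  exact ⟨fun h => by linarith [this.1 h], fun h => by linarith [this.2 h]⟩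

theorem Cap.LC (H : Cap X Y lo hi) {a b c : ℕ} (h1 : lo ≤ a) (h2 : a < b) (h3 : b < c)
    (h4 : c ≤ hi) : ds X Y a c ^ 2 = ds X Y a b ^ 2 + ds X Y b c ^ 2 +
      2 * (ds X Y a b * ds X Y b c) * cos (th X Y b c - th X Y a b) := by
  obtain ⟨p1, x1, y1⟩ := polar (Y := Y) (H.mono a b h1 h2 (by omega))
  obtain ⟨p3, x3, y3⟩ := polar (Y := Y) (H.mono b c (by omega) h3 h4)
  have e : (X b - X a) * (X c - X b) + (Y b - Y a) * (Y c - Y b) =
      (ds X Y a b * ds X Y b c) * cos (th X Y b c - th X Y a b) := by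
    rw [x1, y1, x3, y3, cos_sub]; ring
  rw [ds_sq, ds_sq, ds_sq]; nlinarith

theorem Cap.thL (H : Cap X Y lo hi) {a b c : ℕ} (h1 : lo ≤ a) (h2 : a ≤ b) (h3 : b < c)
    (h4 : c ≤ hi) : th X Y a c ≤ th X Y b c := by
  rcases h2.eq_or_lt with rfl | h
  · exact le_rfl
  · exact (H.th1 h1 h h3 h4).2.le

theorem Cap.thR (H : Cap X Y lo hi) {a b c : ℕ} (h1 : lo ≤ a) (h2 : a < b) (h3 : b ≤ c)
    (h4 : c ≤ hi) : th X Y a b ≤ th X Y a c := by
  rcases h3.eq_or_lt with rfl | h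
  · exact le_rfl
  · exact (H.th1 h1 h2 h h4).1.le

theorem Cap.thD (H : Cap X Y lo hi) {a b r s : ℕ} (h1 : lo ≤ a) (h2 : a < b) (h3 : b ≤ r)
    (h4 : r < s) (h5 : s ≤ hi) : th X Y a b ≤ th X Y r s :=
  (H.thR h1 h2 (by omega) h5).trans (H.thL h1 (by omega) h4 h5)

/-- Altman's step. -/
theorem Cap.alt (H : Cap X Y lo hi) {i j x y : ℕ} (h1 : lo ≤ i) (h2 : j ≤ hi) (hx1 : i < x)
    (hx2 : x < j) (hy1 : i < y) (hy2 : y < j) (hne : lo < i ∨ j < hi) :
    ds X Y x j < ds X Y i j ∨ ds X Y i y < ds X Y i j := by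
  by_contra hc
  push Not at hc
  have a1 := (H.T1 h1 hx1 hx2 h2).1 hc.1
  have a2 := (H.T2 h1 hy1 hy2 h2).1 hc.2
  have a3 := (H.T1 le_rfl (show lo < x by omega) (show x < hi by omega) le_rfl).2
    (H.diam _ _ (by omega) (by omega) le_rfl)
  have a4 := (H.T2 le_rfl (show lo < y by omega) (show y < hi by omega) le_rfl).2
    (H.diam _ _ le_rfl (by omega) (by omega))
  have b1 := H.thL le_rfl h1 hx1 (by omega)
  have b2 := H.thL le_rfl h1 hy1 (by omega)
  have b3 := H.thR (show lo ≤ x by omega) hx2 h2 le_rfl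
  have b4 := H.thR (show lo ≤ y by omega) hy2 h2 le_rfl
  rcases hne with h | h
  · have := (H.th1 le_rfl h hx1 (by omega)).2
    linarith
  · have := (H.th1 (show lo ≤ x by omega) hx2 h le_rfl).1
    linarith

theorem Cap.obt (H : Cap X Y lo hi) {a b c : ℕ} (h1 : lo ≤ a) (h2 : a < b) (h3 : b < c)
    (h4 : c ≤ hi) (h : th X Y b c - th X Y a b ≤ π / 2) :
    ds X Y a b < ds X Y a c ∧ ds X Y b c < ds X Y a c := by
  have e := H.LC h1 h2 h3 h4
  have p1 := (polar (Y := Y) (H.mono a b h1 h2 (by omega))).1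
  have p3 := (polar (Y := Y) (H.mono b c (by omega) h3 h4)).1
  obtain ⟨t1, t2⟩ := H.th1 h1 h2 h3 h4
  have hc : 0 ≤ cos (th X Y b c - th X Y a b) :=
    cos_nonneg_of_neg_pi_div_two_le_of_le (by linarith [pi_pos]) h
  have : 0 ≤ 2 * (ds X Y a b * ds X Y b c) * cos (th X Y b c - th X Y a b) := by positivity
  constructor
  · apply lt_of_pow_lt_pow_left₀ 2 (ds_nonneg _ _ _ _); nlinarith
  · apply lt_of_pow_lt_pow_left₀ 2 (ds_nonneg _ _ _ _); nlinarith

theorem Cap.inside (H : Cap X Y lo hi) {a b : ℕ} (h1 : lo < a) (h2 : a < b) (h3 : b < hi) :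
    ds X Y a b < ds X Y lo hi := by
  by_cases h : th X Y a b - th X Y lo a ≤ π / 2
  · exact (H.obt le_rfl h1 h2 h3.le h).2.trans_le (H.diam _ _ le_rfl (by omega) h3.le)
  · have h' : th X Y b hi - th X Y a b ≤ π / 2 := by
      linarith [th_lt X Y b hi, lt_th X Y lo a]
    exact (H.obt h1.le h2 h3 le_rfl h').1.trans_le (H.diam _ _ h1.le (by omega) le_rfl)

theorem Cap.sixty (H : Cap X Y lo hi) {a b c : ℕ} (h1 : lo ≤ a) (h2 : a < b) (h3 : b < c)
    (h4 : c ≤ hi) : 3 / 4 * ds X Y a b ^ 2 ≤ ds X Y a c ^ 2 ∧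
      3 / 4 * ds X Y b c ^ 2 ≤ ds X Y a c ^ 2 := by
  have e := H.LC h1 h2 h3 h4
  have p1 := (polar (Y := Y) (H.mono a b h1 h2 (by omega))).1
  have p3 := (polar (Y := Y) (H.mono b c (by omega) h3 h4)).1
  obtain ⟨t1, t2⟩ := H.th1 h1 h2 h3 h4
  have a3 := (H.T1 le_rfl (show lo < b by omega) (show b < hi by omega) le_rfl).2
    (H.diam _ _ (by omega) (by omega) le_rfl)
  have a4 := (H.T2 le_rfl (show lo < b by omega) (show b < hi by omega) le_rfl).2
    (H.diam _ _ le_rfl (by omega) (by omega))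
  have b1 := H.thL le_rfl h1 h2 (by omega)
  have b3 := H.thR (show lo ≤ b by omega) h3 h4 le_rfl
  have hc : -(1 / 2) ≤ cos (th X Y b c - th X Y a b) := by
    have := cos_le_cos_of_nonneg_of_le_pi (x := th X Y b c - th X Y a b) (y := π - π / 3)
      (by linarith) (by linarith [pi_pos]) (by linarith)
    rwa [cos_pi_sub, cos_pi_div_three] at this
  have := mul_le_mul_of_nonneg_left hc (show 0 ≤ 2 * (ds X Y a b * ds X Y b c) by positivity)
  constructor
  · nlinarith [sq_nonneg (ds X Y a b - 2 * ds X Y b c)]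
  · nlinarith [sq_nonneg (2 * ds X Y a b - ds X Y b c)]

theorem Cap.up (H : Cap X Y lo hi) {a b : ℕ} (h1 : lo ≤ a) (h2 : a ≤ b) (h3 : b ≤ hi)
    (h : a < b → 0 ≤ th X Y a b) : X a ≤ X b ∧ Y a ≤ Y b := by
  rcases h2.eq_or_lt with rfl | h2
  · exact ⟨le_rfl, le_rfl⟩
  · obtain ⟨p1, x1, y1⟩ := polar (Y := Y) (H.mono a b h1 h2 h3)
    have : 0 ≤ sin (th X Y a b) :=
      sin_nonneg_of_nonneg_of_le_pi (h h2) (by linarith [th_lt X Y a b, pi_pos])
    have := mul_nonneg p1.le this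
    exact ⟨(H.mono a b h1 h2 h3).le, by linarith⟩

theorem Cap.down (H : Cap X Y lo hi) {a b : ℕ} (h1 : lo ≤ a) (h2 : a ≤ b) (h3 : b ≤ hi)
    (h : a < b → th X Y a b ≤ 0) : X a ≤ X b ∧ Y b ≤ Y a := by
  rcases h2.eq_or_lt with rfl | h2
  · exact ⟨le_rfl, le_rfl⟩
  · obtain ⟨p1, x1, y1⟩ := polar (Y := Y) (H.mono a b h1 h2 h3)
    have : sin (th X Y a b) ≤ 0 :=
      sin_nonpos_of_nonpos_of_neg_pi_le (h h2) (by linarith [lt_th X Y a b, pi_pos])
    have := mul_nonpos_of_nonneg_of_nonpos p1.le this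
    exact ⟨(H.mono a b h1 h2 h3).le, by linarith⟩

theorem Cap.two (H : Cap X Y lo hi) {i j a b a' b' : ℕ} (h1 : lo ≤ i) (h2 : i ≤ a) (h3 : a < b)
    (h4 : b ≤ a') (h5 : a' < b') (h6 : b' ≤ j) (h7 : j ≤ hi) (hne : lo < i ∨ j < hi) :
    ds X Y a b < ds X Y i j ∨ ds X Y a' b' < ds X Y i j := by
  have p1 := (polar (Y := Y) (H.mono a b (by omega) h3 (by omega))).1
  have p2 := (polar (Y := Y) (H.mono a' b' (by omega) h5 (by omega))).1
  have fin : 3 / 4 * (ds X Y a b ^ 2 + ds X Y a' b' ^ 2) ≤ ds X Y i j ^ 2 →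
      ds X Y a b < ds X Y i j ∨ ds X Y a' b' < ds X Y i j := by
    intro h
    by_contra hc
    push Not at hc
    have := ds_nonneg X Y i j
    nlinarith [hc.1, hc.2]
  by_cases c1 : i < a ∧ π / 2 < th X Y a b - th X Y i a
  · apply fin
    have t0 : 0 ≤ th X Y a b := by linarith [lt_th X Y i a, c1.2]
    have u1 := H.up (show lo ≤ a by omega) h3.le (by omega) (fun _ => t0)
    have u2 := H.up (show lo ≤ b by omega) h4 (by omega)
      (fun h => t0.trans (H.thD (by omega) h3 le_rfl h (by omega)))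
    have u3 := H.up (show lo ≤ a' by omega) h5.le (by omega)
      (fun h => t0.trans (H.thD (by omega) h3 h4 h (by omega)))
    have u4 := H.up (show lo ≤ b' by omega) h6 h7
      (fun h => t0.trans (H.thD (by omega) h3 (by omega) h h7))
    have s := (H.sixty h1 c1.1 (show a < j by omega) h7).2
    have : ds X Y a b ^ 2 + ds X Y a' b' ^ 2 ≤ ds X Y a j ^ 2 := by
      rw [ds_sq, ds_sq, ds_sq]
      have e1 : (X b - X a) ^ 2 + (X b' - X a') ^ 2 ≤ (X j - X a) ^ 2 := by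
        nlinarith [u1.1, u2.1, u3.1, u4.1]
      have e2 : (Y b - Y a) ^ 2 + (Y b' - Y a') ^ 2 ≤ (Y j - Y a) ^ 2 := by
        nlinarith [u1.2, u2.2, u3.2, u4.2]
      linarith
    linarith
  by_cases c2 : b' < j ∧ π / 2 < th X Y b' j - th X Y a' b'
  · apply fin
    have t0 : th X Y a' b' ≤ 0 := by linarith [th_lt X Y b' j, c2.2]
    have u1 := H.down h1 h2 (by omega)
      (fun h => (H.thD h1 h (by omega) h5 (by omega)).trans t0)
    have u2 := H.down (show lo ≤ a by omega) h3.le (by omega)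
      (fun h => (H.thD (by omega) h h4 h5 (by omega)).trans t0)
    have u3 := H.down (show lo ≤ b by omega) h4 (by omega)
      (fun h => (H.thD (by omega) h le_rfl h5 (by omega)).trans t0)
    have u4 := H.down (show lo ≤ a' by omega) h5.le (by omega) (fun _ => t0)
    have s := (H.sixty h1 (show i < b' by omega) c2.1 h7).1
    have : ds X Y a b ^ 2 + ds X Y a' b' ^ 2 ≤ ds X Y i b' ^ 2 := by
      rw [ds_sq, ds_sq, ds_sq]
      have e1 : (X b - X a) ^ 2 + (X b' - X a') ^ 2 ≤ (X b' - X i) ^ 2 := by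
        nlinarith [u1.1, u2.1, u3.1, u4.1]
      have e2 : (Y b - Y a) ^ 2 + (Y b' - Y a') ^ 2 ≤ (Y b' - Y i) ^ 2 := by
        nlinarith [u1.2, u2.2, u3.2, u4.2]
      linarith
    linarith
  have e1 : ds X Y a b ≤ ds X Y i b := by
    rcases h2.eq_or_lt with rfl | h
    · exact le_rfl
    · exact (H.obt h1 h h3 (by omega) (not_lt.1 fun hh => c1 ⟨h, hh⟩)).2.le
  have e2 : ds X Y a' b' ≤ ds X Y a' j := by
    rcases h6.eq_or_lt with rfl | h
    · exact le_rfl
    · exact (H.obt (by omega) h5 h h7 (not_lt.1 fun hh => c2 ⟨h, hh⟩)).1.le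
  rcases H.alt h1 h7 (show i < a' by omega) (show a' < j by omega) (show i < b by omega)
    (show b < j by omega) hne with h | h
  · right; linarith
  · left; linarith

end Pool.Agent.KS6_22.LD
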