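import Pool.Agent.KS6_22.LD.A

set_option autoImplicit false

namespace Pool.Agent.KS6_22.LD

structure CD (d : ℕ → ℕ → ℝ) (lo hi : ℕ) : Prop where
  alt : ∀ i j, lo ≤ i → j + 1 ≤ hi → i < j → (lo < i ∨ j + 1 < hi) →
    d (i + 1) (j + 1) < d i (j + 1) ∨ d i j < d i (j + 1)
  two : ∀ i j a b a' b', lo ≤ i → i ≤ a → a < b → b ≤ a' → a' < b' → b' ≤ j → j ≤ hi →
    (lo < i ∨ j < hi) → d a b < d i j ∨ d a' b' < d i j
  inside : ∀ a b, lo < a → a < b → b < hi → d a b < d lo hi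

theorem cd_of {x y : ℕ → ℝ} {lo hi : ℕ} (hpos : 0 < ds x y lo hi)
    (ori : ∀ a b c, lo ≤ a → a < b → b < c → c ≤ hi → 0 < cr x y a b c)
    (inj : ∀ a b, lo ≤ a → a < b → b ≤ hi → 0 < ds x y a b)
    (diam : ∀ a b, lo ≤ a → a < b → b ≤ hi → ds x y a b ≤ ds x y lo hi) :
    CD (ds x y) lo hi := by
  set D := ds x y lo hi with hD
  set e1 := x hi - x lo with he1
  set e2 := y hi - y lo with he2
  have hD2 : D ^ 2 = e1 ^ 2 + e2 ^ 2 := ds_sq x y lo hi
  let X : ℕ → ℝ := fun a => ((x a - x lo) * e1 + (y a - y lo) * e2) / D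
  let Y : ℕ → ℝ := fun a => ((y a - y lo) * e1 - (x a - x lo) * e2) / D
  have eds : ds X Y = ds x y := by
    funext a b
    unfold ds
    congr 1
    simp only [X, Y]
    field_simp
    rw [hD2]; ring
  have ecr : ∀ a b c, cr X Y a b c = cr x y a b c := by
    intro a b c
    unfold cr
    simp only [X, Y]
    field_simp
    rw [hD2]; ring
  have Xlo : X lo = 0 := by simp [X]
  have Ylo : Y lo = 0 := by simp [Y]
  have Xhi : X hi = D := by
    simp only [X]; rw [← he1, ← he2]; field_simp; rw [hD2]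
  have Yhi : Y hi = 0 := by
    simp only [Y]; rw [← he1, ← he2]; ring
  have mid : ∀ a, lo < a → a < hi → 0 < X a ∧ X a < D ∧ Y a < 0 := by
    intro a h1 h2
    have a1 := pow_le_pow_left₀ (ds_nonneg _ _ _ _) (diam lo a le_rfl h1 h2.le) 2
    have a2 := pow_le_pow_left₀ (ds_nonneg _ _ _ _) (diam a hi h1.le h2 le_rfl) 2
    have a3 := ori lo a hi le_rfl h1 h2 le_rfl
    rw [← ecr] at a3
    rw [← eds, ds_sq] at a1 a2
    unfold cr at a3
    rw [Xlo, Ylo] at a1
    rw [Xhi, Yhi] at a2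
    rw [Xlo, Ylo, Xhi, Yhi] at a3
    have hy : Y a < 0 := by nlinarith
    refine ⟨?_, ?_, hy⟩ <;> nlinarith
  have H : Cap X Y lo hi := by
    refine ⟨?_, fun a b c h1 h2 h3 h4 => by rw [ecr]; exact ori a b c h1 h2 h3 h4,
      fun a b h1 h2 h3 => by rw [eds]; exact diam a b h1 h2 h3⟩
    intro a b h1 h2 h3
    rcases h1.eq_or_lt with rfl | h1
    · rcases h3.eq_or_lt with rfl | h3
      · rw [Xlo, Xhi]; exact hpos
      · rw [Xlo]; exact (mid b h2 h3).1
    · rcases h3.eq_or_lt with rfl | h3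
      · rw [Xhi]; exact (mid a h1 h2).2.1
      · obtain ⟨a1, a2, a3⟩ := mid a h1 (by omega)
        obtain ⟨b1, b2, b3⟩ := mid b (by omega) h3
        have o1 := ori lo a b le_rfl h1 h2 h3.le
        have o2 := ori a b hi h1.le h2 h3 le_rfl
        rw [← ecr] at o1 o2
        unfold cr at o1 o2
        rw [Xlo, Ylo] at o1
        rw [Xhi, Yhi] at o2
        by_contra hc
        have hc := not_lt.1 hc
        have c1 : Y a < Y b := by nlinarith
        have c2 : Y b < Y a := by nlinarith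
        linarith
  rw [← eds]
  refine ⟨fun i j h1 h2 h3 h4 => ?_, fun i j a b a' b' h1 h2 h3 h4 h5 h6 h7 h8 =>
    H.two h1 h2 h3 h4 h5 h6 h7 h8, fun a b h1 h2 h3 => H.inside h1 h2 h3⟩
  exact H.alt h1 h2 (show i < i + 1 by omega) (by omega) h3 (by omega) h4

/-- `s` long steps with disjoint interiors inside `[i, j]`. -/
inductive St (L : ℕ → ℕ → Prop) : ℕ → ℕ → ℕ → Prop
  | zero (i j : ℕ) : St L 0 i j
  | cons {s i j : ℕ} (a b : ℕ) : i ≤ a → a < b → b ≤ j → L a b → St L s b j → St L (s + 1) i j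

variable {L : ℕ → ℕ → Prop}

theorem St.inv {s i j : ℕ} (h : St L (s + 1) i j) :
    ∃ a b, i ≤ a ∧ a < b ∧ b ≤ j ∧ L a b ∧ St L s b j := by
  cases h with
  | cons a b h1 h2 h3 h4 h5 => exact ⟨a, b, h1, h2, h3, h4, h5⟩

theorem St.monoL {s i i' j : ℕ} (h : St L s i j) (hi : i' ≤ i) : St L s i' j := by
  cases h with
  | zero => exact St.zero _ _
  | cons a b h1 h2 h3 h4 h5 => exact St.cons a b (by omega) h2 h3 h4 h5

theorem St.monoR {s i j j' : ℕ} (h : St L s i j) (hj : j ≤ j') : St L s i j' := by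
  induction h with
  | zero => exact St.zero _ _
  | cons a b h1 h2 h3 h4 _ ih => exact St.cons a b h1 h2 (by omega) h4 (ih hj)

theorem St.dropL {s i j : ℕ} (h : St L (s + 1) i j) : St L s (i + 1) j := by
  obtain ⟨a, b, h1, h2, h3, h4, h5⟩ := h.inv
  exact h5.monoL (by omega)

theorem St.dropR : ∀ {s i j : ℕ}, St L (s + 1) i (j + 1) → St L s i j
  | 0, _, _, _ => St.zero _ _
  | s + 1, i, j, h => by
    obtain ⟨a, b, h1, h2, h3, h4, h5⟩ := h.inv
    obtain ⟨a', b', h1', h2', h3', -, -⟩ := h5.inv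
    exact St.cons a b h1 h2 (by omega) h4 h5.dropR

theorem St.less {s i j : ℕ} (h : St L (s + 1) i j) : St L s i j := h.dropL.monoL (by omega)

theorem St.le_less {s s' i j : ℕ} (h : St L s i j) (hs : s' ≤ s) : St L s' i j := by
  induction hs with
  | refl => exact h
  | step _ ih => exact ih h.less

theorem St.append {s i y : ℕ} (h : St L s i y) {s' j : ℕ} (h' : St L s' y j) (hy : y ≤ j)
    (hi : i ≤ y) : St L (s' + s) i j := by
  induction h with
  | zero => exact h'.monoL hi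
  | cons a b h1 h2 h3 h4 _ ih => exact St.cons a b h1 h2 (by omega) h4 (ih h' hy h3)

theorem St.split : ∀ {s s' i j : ℕ}, St L (s' + s) i j → ∃ y, i ≤ y ∧ St L s i y ∧ St L s' y j
  | 0, _, i, _, h => ⟨i, le_rfl, St.zero _ _, h⟩
  | s + 1, s', i, j, h => by
    obtain ⟨a, b, h1, h2, h3, h4, h5⟩ := St.inv (s := s' + s) h
    obtain ⟨y, hy, h6, h7⟩ := h5.split
    exact ⟨y, by omega, St.cons a b h1 h2 hy h4 h6, h7⟩

theorem St.cut {s i j : ℕ} (h : St L s i j) (m : ℕ) (hm : i ≤ m) :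
    (∃ s1 s2, s1 + s2 = s ∧ St L s1 i m ∧ St L s2 m j) ∨
    (∃ s1 s2 a b, s1 + s2 + 1 = s ∧ i ≤ a ∧ a < m ∧ m < b ∧ b ≤ j ∧ L a b ∧ St L s1 i a ∧
      St L s2 b j) := by
  induction h with
  | zero i j => exact Or.inl ⟨0, 0, rfl, St.zero _ _, St.zero _ _⟩
  | @cons s i j a b h1 h2 h3 h4 h5 ih =>
    by_cases hb : b ≤ m
    · rcases ih hb with ⟨s1, s2, e, g1, g2⟩ | ⟨s1, s2, a', b', e, g1, g2, g3, g4, g5, g6, g7⟩
      · exact Or.inl ⟨s1 + 1, s2, by omega, St.cons a b h1 h2 hb h4 g1, g2⟩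
      · exact Or.inr ⟨s1 + 1, s2, a', b', by omega, by omega, g2, g3, g4, g5,
          St.cons a b h1 h2 g1 h4 g6, g7⟩
    · by_cases ha : m ≤ a
      · exact Or.inl ⟨0, s + 1, by omega, St.zero _ _, St.cons a b ha h2 h3 h4 h5⟩
      · exact Or.inr ⟨0, s, a, b, by omega, h1, by omega, by omega, h3, h4, St.zero _ _, h5⟩

theorem greedy (N : ℕ) : ∀ s i, ¬ St L s i N → ∃ col : ℕ → ℕ, (∀ r, col r < s) ∧
    ∀ r r', i ≤ r → r < r' → r' ≤ N → L r r' → col r ≠ col r'
  | 0, i, h => (h (St.zero _ _)).elim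
  | s + 1, i, h => by
    classical
    by_cases hex : ∃ b, ∃ a, i ≤ a ∧ a < b ∧ b ≤ N ∧ L a b
    · obtain ⟨a, h1, h2, h3, h4⟩ := Nat.find_spec hex
      obtain ⟨col, hc1, hc2⟩ := greedy N s (Nat.find hex)
        (fun hh => h (St.cons a _ h1 h2 h3 h4 hh))
      refine ⟨fun r => if r < Nat.find hex then s else col r, fun r => ?_, ?_⟩
      · have := hc1 r
        beta_reduce
        split_ifs <;> omega
      · intro r r' g1 g2 g3 g4
        have g5 : ¬ r' < Nat.find hex := fun hh => Nat.find_min hex hh ⟨r, g1, g2, g3, g4⟩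
        simp only [g5, if_false]
        split_ifs with g6
        · exact (hc1 r').ne'
        · exact hc2 r r' (by omega) g2 g3 g4
    · exact ⟨fun _ => 0, fun _ => Nat.succ_pos _, fun r r' g1 g2 g3 g4 =>
        (hex ⟨r', r, g1, g2, g3, g4⟩).elim⟩

theorem count {d : ℕ → ℕ → ℝ} {lo hi : ℕ} (H : CD d lo hi) {t : ℝ} {S : Finset ℝ}
    (hS : ∀ a b, lo ≤ a → a < b → b ≤ hi → t ≤ d a b → d a b ∈ S) :
    ∀ w s i j, j - i = w → lo ≤ i → j ≤ hi → (lo < i ∨ j < hi) →
      St (fun a b => t ≤ d a b) (s + 2) i j →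
      t ≤ d i j ∧ s + 2 ≤ (S.filter (fun z => z ≤ d i j)).card := by
  intro w
  induction w using Nat.strong_induction_on with
  | _ w ih =>
  intro s i j hw h1 h2 h3 hst
  obtain ⟨a, b, a1, a2, a3, a4, a5⟩ := hst.inv
  obtain ⟨a', b', b1, b2, b3, b4, -⟩ := a5.inv
  have h2' := H.two i j a b a' b' h1 a1 a2 b1 b2 b3 h2 h3
  have ht : t ≤ d i j := by rcases h2' with h | h <;> linarith
  refine ⟨ht, ?_⟩
  have hmem : d i j ∈ S := hS i j h1 (by omega) h2 ht
  have grow : ∀ z, z < d i j → (S.filter (fun u => u ≤ z)).card + 1 ≤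
      (S.filter (fun u => u ≤ d i j)).card := by
    intro z hz
    apply Finset.card_lt_card
    rw [Finset.ssubset_iff_of_subset (Finset.monotone_filter_right _ fun u _ hu => hu.trans hz.le)]
    exact ⟨d i j, Finset.mem_filter.2 ⟨hmem, le_rfl⟩, fun hh =>
      absurd (Finset.mem_filter.1 hh).2 (not_le.2 hz)⟩
  rcases s with _ | s
  · have one : ∀ z, z ∈ S → 1 ≤ (S.filter (fun u => u ≤ z)).card := fun z hz =>
      Finset.card_pos.2 ⟨z, Finset.mem_filter.2 ⟨hz, le_rfl⟩⟩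
    rcases h2' with h | h
    · have := grow _ h
      have := one _ (hS a b (by omega) a2 (by omega) a4)
      omega
    · have := grow _ h
      have := one _ (hS a' b' (by omega) b2 (by omega) b4)
      omega
  · obtain ⟨j, rfl⟩ : ∃ j', j = j' + 1 := ⟨j - 1, by omega⟩
    rcases H.alt i j h1 h2 (by omega) h3 with h | h
    · have := (ih _ (by omega) s (i + 1) (j + 1) rfl (by omega) h2 (by omega) hst.dropL).2
      have := grow _ h
      omega
    · have := (ih _ (by omega) s i j rfl h1 (by omega) (by omega) hst.dropR).2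
      have := grow _ h
      omega

theorem core {d : ℕ → ℕ → ℝ} {n : ℕ} {t D : ℝ} {S : Finset ℝ} (htD : t ≤ D)
    (hsym : ∀ a, d a (n + 1) = d 0 a) (h00 : d 0 0 < D)
    (hle : ∀ a b, a < b → b ≤ n + 1 → d a b ≤ D)
    (hS : ∀ a b, a < b → b ≤ n + 1 → (0 < a ∨ b ≤ n) → t ≤ d a b → d a b ∈ S)
    (hcap : ∀ m, 0 < m → m ≤ n → d 0 m = D → CD d 0 m ∧ CD d m (n + 1))
    (q : ℕ) (hq0 : 0 < q) (hqn : q ≤ n) (hq : d 0 q = D) :
    ¬ St (fun a b => t ≤ d a b) (2 * S.card + 1) 0 n := by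
  have hDS : D ∈ S := hq ▸ hS 0 q hq0 (by omega) (Or.inr hqn) (hq ▸ htD)
  have hk : 1 ≤ S.card := Finset.card_pos.2 ⟨D, hDS⟩
  have F2 : ∀ lo hi, CD d lo hi → hi ≤ n + 1 → (0 < lo ∨ hi ≤ n) → ∀ s i j, lo ≤ i → j ≤ hi →
      (lo < i ∨ j < hi) → St (fun a b => t ≤ d a b) s i j →
      s ≤ S.card ∧ (2 ≤ s → d i j < D → s + 1 ≤ S.card) := by
    intro lo hi H g1 g2 s i j g3 g4 g5 hst
    by_cases hs : s ≤ 1
    · exact ⟨by omega, fun h => by omega⟩
    obtain ⟨s, rfl⟩ : ∃ s', s = s' + 2 := ⟨s - 2, by omega⟩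
    have := (count H (S := S) (fun a b h1 h2 h3 h4 => hS a b h2 (by omega) (by omega) h4)
      _ s i j rfl g3 g4 g5 hst).2
    refine ⟨this.trans (Finset.card_filter_le _ _), fun _ hlt => ?_⟩
    have h2 : (S.filter (fun z => z ≤ d i j)).card < S.card := by
      apply Finset.card_lt_card
      rw [Finset.ssubset_iff_of_subset (Finset.filter_subset _ _)]
      exact ⟨D, hDS, fun hh => absurd (Finset.mem_filter.1 hh).2 (not_le.2 hlt)⟩
    omega
  have K1 : S.card = 1 → ∀ a b, a < b → b ≤ n → t ≤ d a b → d a b = D := by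
    intro h1 a b g1 g2 g3
    exact Finset.card_le_one.1 h1.le _ (hS a b g1 (by omega) (Or.inr g2) g3) _ hDS
  have G : ∀ m, 0 < m → m ≤ n → d 0 m = D → ∀ s1 s2, St (fun a b => t ≤ d a b) s1 0 m →
      St (fun a b => t ≤ d a b) s2 m n → s1 + s2 ≤ 2 * S.card := by
    intro m g1 g2 g3 s1 s2 t1 t2
    classical
    obtain ⟨C1, C2⟩ := hcap m g1 g2 g3
    have e2 := (F2 _ _ C2 le_rfl (Or.inl g1) s2 m n le_rfl (by omega) (by omega) t2).1
    by_contra hc
    have t1' : St (fun a b => t ≤ d a b) (1 + S.card) 0 m := t1.le_less (by omega)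
    have hex := t1'.split
    have hex' : ∃ y, St (fun a b => t ≤ d a b) S.card 0 y := hex.imp fun y h => h.2.1
    obtain ⟨y, -, y1, y2⟩ := hex
    have z1 := Nat.find_spec hex'
    have z2 : St (fun a b => t ≤ d a b) 1 (Nat.find hex') m := y2.monoL (Nat.find_min' hex' y1)
    have z3 : Nat.find hex' < m := by
      obtain ⟨a, b, a1, a2, a3, -, -⟩ := z2.inv
      omega
    have hs2 : s2 = S.card := by
      by_contra hne
      have t1'' : St (fun a b => t ≤ d a b) (1 + (S.card + 1)) 0 m := t1.le_less (by omega)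
      obtain ⟨y', -, y1', y2'⟩ := t1''.split
      obtain ⟨a, b, a1, a2, a3, -, -⟩ := y2'.inv
      have := (F2 _ _ C1 (by omega) (Or.inr g2) _ 0 y' le_rfl (by omega) (by omega) y1').1
      omega
    have hD : d 0 (Nat.find hex') = D := by
      by_cases h1 : S.card = 1
      · have z1' : St (fun a b => t ≤ d a b) (0 + 1) 0 (Nat.find hex') := by
          rw [zero_add, ← h1]; exact z1
        obtain ⟨a, b, a1, a2, a3, a4, -⟩ := z1'.inv
        have hb : Nat.find hex' ≤ b := Nat.find_min' hex'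
          (by rw [h1]; exact St.cons a b a1 a2 le_rfl a4 (St.zero _ _))
        have hb' : b = Nat.find hex' := by omega
        have e := K1 h1 a b a2 (by omega) a4
        rcases a1.eq_or_lt with h | h
        · rw [← hb', h]; exact e
        · have := C1.inside a b h a2 (by omega)
          linarith
      · have hy0 : 0 < Nat.find hex' := by
          obtain ⟨k, hk'⟩ : ∃ k, S.card = k + 1 := ⟨S.card - 1, by omega⟩
          have z1' : St (fun a b => t ≤ d a b) (k + 1) 0 (Nat.find hex') := hk' ▸ z1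
          obtain ⟨a, b, a1, a2, a3, -, -⟩ := z1'.inv
          omega
        apply le_antisymm (hle _ _ hy0 (by omega))
        by_contra hlt
        have := (F2 _ _ C1 (by omega) (Or.inr g2) _ 0 _ le_rfl (by omega) (by omega) z1).2
          (by omega) (not_le.1 hlt)
        omega
    have hy0 : 0 < Nat.find hex' := by
      by_contra h
      rw [show Nat.find hex' = 0 by omega] at hD
      linarith
    obtain ⟨-, C3⟩ := hcap _ hy0 (by omega) hD
    have := (F2 _ _ C3 le_rfl (Or.inl hy0) _ _ n le_rfl (by omega) (by omega)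
      (z2.append t2 g2 z3.le)).1
    omega
  intro hst
  obtain ⟨C1, C2⟩ := hcap q hq0 hqn hq
  rcases hst.cut q (by omega) with ⟨s1, s2, e, g1, g2⟩ |
    ⟨s1, s2, a, b, e, -, g2, g3, g4, g5, g6, g7⟩
  · have := G q hq0 hqn hq s1 s2 g1 g2
    omega
  · have e1 := (F2 _ _ C1 (by omega) (Or.inr hqn) _ 0 a le_rfl g2.le (by omega) g6).1
    have e2 := F2 _ _ C2 le_rfl (Or.inl hq0) _ b (n + 1) g3.le le_rfl (by omega)
      (g7.monoR (by omega))
    by_cases hb : d 0 b = D
    · have t1 : St (fun a b => t ≤ d a b) (1 + s1) 0 b :=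
        g6.append (St.cons a b le_rfl (by omega) le_rfl g5 (St.zero _ _)) (by omega) (by omega)
      have := G b (by omega) g4 hb _ _ t1 g7
      omega
    · by_cases h1 : S.card = 1
      · obtain rfl : s2 = 0 + 1 := by omega
        obtain ⟨a', b', a1, a2, a3, a4, -⟩ := g7.inv
        have := C2.inside a' b' (by omega) a2 (by omega)
        rw [hsym, hq, K1 h1 a' b' a2 a3 a4] at this
        exact lt_irrefl _ this
      · have := e2.2 (by omega)
          (by rw [hsym]; exact lt_of_le_of_ne (hle 0 b (by omega) (by omega)) hb)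
        omega

end Pool.Agent.KS6_22.LD
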